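import Mathlib
import Pool.Agent.W719.AEC.Est

/-!
# The quantum dimensions of the dilated labels of SU(N)
-/

set_option autoImplicit false

open Finset Filter Topology W719AEC

namespace Pool.Agent.Y472.LK

/-- The labels of level `k₀`, encoded by partitions: `l i = λ_(N-i)`. -/
def IsLabel (N k₀ : ℕ) (l : Fin N → ℕ) : Prop :=
  (∀ i j : Fin N, i ≤ j → l i ≤ l j) ∧ (∀ i : Fin N, (i : ℕ) = 0 → l i = 0) ∧ ∀ i, l i ≤ k₀

/-- The code of the label `s λ`. -/
def dil {N : ℕ} (s : ℕ) (l : Fin N → ℕ) : Fin N → ℕ := fun i => s * l i + i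

/-- The quantum dimension. -/
noncomputable def qdim (N r : ℕ) (a : Fin N → ℕ) : ℂ :=
  Smat N r (triv N) a / Smat N r (triv N) (triv N)

/-- The number of the positive roots `α` with `0 < ⟨λ, α⟩ < k₀`. -/
def deg {N : ℕ} (k₀ : ℕ) (l : Fin N → ℕ) : ℕ :=
  ∑ i : Fin N, ((Ioi i).filter fun j => l i < l j ∧ l j < l i + k₀).card

theorem dil_mem {N k₀ : ℕ} {l : Fin N → ℕ} (hl : IsLabel N k₀ l) (s : ℕ) :
    dil s l ∈ labels N (s * k₀ + N) := by
  rw [mem_labels]
  refine ⟨fun i => ?_, fun i j hij => ?_, fun i hi => ?_⟩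
  · have h1 : s * l i ≤ s * k₀ := Nat.mul_le_mul_left s (hl.2.2 i)
    have h2 := i.2
    show s * l i + i < s * k₀ + N
    omega
  · have h1 : s * l i ≤ s * l j := Nat.mul_le_mul_left s (hl.1 i j hij.le)
    have h2 : (i : ℕ) < j := hij
    show s * l i + i < s * l j + j
    omega
  · show s * l i + i = 0
    rw [hl.2.1 i hi, hi]
    simp

theorem triv_mem {N r : ℕ} (h : N ≤ r) : triv N ∈ labels N r := by
  rw [mem_labels]
  refine ⟨fun i => ?_, fun i j hij => hij, fun i hi => hi⟩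
  have := i.2
  show (i : ℕ) < r
  omega

theorem norm_qdim {N r : ℕ} (hN : 0 < N) (hr : N ≤ r) {a : Fin N → ℕ} (ha : a ∈ labels N r) :
    ‖qdim N r a‖ = ∏ i : Fin N, ∏ j ∈ Ioi i,
      (Real.sin (Real.pi * ((a j : ℝ) - a i) / r) /
        Real.sin (Real.pi * (((j : ℕ) : ℝ) - ((i : ℕ) : ℝ)) / r)) := by
  have hk := kap_pos N r hN (by omega)
  have h1 := V_pos ha
  have h2 := V_pos (triv_mem hr)
  unfold qdim
  rw [Smat_triv_eq hN ha, Smat_triv_eq hN (triv_mem hr), norm_div, Complex.norm_real,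
    Complex.norm_real, Real.norm_of_nonneg (by positivity), Real.norm_of_nonneg (by positivity),
    mul_div_mul_left _ _ hk.ne', V_eq_sin ha, V_eq_sin (triv_mem hr), ← Finset.prod_div_distrib]
  refine Finset.prod_congr rfl fun i _ => ?_
  rw [← Finset.prod_div_distrib]
  refine Finset.prod_congr rfl fun j _ => ?_
  rw [mul_div_mul_left _ _ (by norm_num : (2 : ℝ) ≠ 0)]
  rfl

theorem level_tendsto (N k₀ : ℕ) (hk : 1 ≤ k₀) :
    Tendsto (fun s : ℕ => ((s * k₀ + N : ℕ) : ℝ)) atTop atTop := by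
  refine tendsto_natCast_atTop_atTop.comp ?_
  refine tendsto_atTop_mono (fun s => ?_) tendsto_id
  show s ≤ s * k₀ + N
  nlinarith

/-- `x sin (π e / x) → π e` -/
theorem sin_lim (x : ℕ → ℝ) (hx : Tendsto x atTop atTop) (e : ℝ) :
    Tendsto (fun s => x s * Real.sin (Real.pi * e / x s)) atTop (𝓝 (Real.pi * e)) := by
  have h1 : Tendsto (fun s => (x s)⁻¹) atTop (𝓝[≠] 0) := by
    refine tendsto_nhdsWithin_iff.2 ⟨hx.inv_tendsto_atTop, ?_⟩
    filter_upwards [hx.eventually (eventually_gt_atTop 0)] with s hs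
    exact inv_ne_zero hs.ne'
  have h2 : HasDerivAt (fun t : ℝ => Real.sin (Real.pi * e * t)) (Real.pi * e) 0 := by
    have h3 := ((hasDerivAt_id (0 : ℝ)).const_mul (Real.pi * e)).sin
    simpa using h3
  have h4 := h2.tendsto_slope.comp h1
  refine h4.congr' ?_
  filter_upwards [hx.eventually (eventually_gt_atTop 0)] with s hs
  simp only [Function.comp, slope_def_field, mul_zero, Real.sin_zero, sub_zero]
  rw [div_inv_eq_mul, mul_comm]
  congr 2

theorem pair_lim {N k₀ : ℕ} (hk : 1 ≤ k₀) {l : Fin N → ℕ} (hl : IsLabel N k₀ l) {i j : Fin N}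
    (hij : i < j) : ∃ L : ℝ, 0 < L ∧ Tendsto (fun s : ℕ =>
      Real.sin (Real.pi * ((dil s l j : ℝ) - dil s l i) / ((s * k₀ + N : ℕ) : ℝ)) /
        Real.sin (Real.pi * (((j : ℕ) : ℝ) - ((i : ℕ) : ℝ)) / ((s * k₀ + N : ℕ) : ℝ)) /
        ((s * k₀ + N : ℕ) : ℝ) ^ (if l i < l j ∧ l j < l i + k₀ then 1 else 0)) atTop (𝓝 L) := by
  have hx := level_tendsto N k₀ hk
  set x : ℕ → ℝ := fun s => ((s * k₀ + N : ℕ) : ℝ) with hxdef
  have hij' : ((i : ℕ) : ℝ) < ((j : ℕ) : ℝ) := by exact_mod_cast hij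
  set e : ℝ := ((j : ℕ) : ℝ) - ((i : ℕ) : ℝ) with he
  have he0 : 0 < e := by rw [he]; linarith
  have hjN : ((j : ℕ) : ℝ) < N := by exact_mod_cast j.2
  have hi0 : (0 : ℝ) ≤ ((i : ℕ) : ℝ) := Nat.cast_nonneg _
  have heN : e < N := by rw [he]; linarith
  have hpi := Real.pi_pos
  have hk' : (1 : ℝ) ≤ k₀ := by exact_mod_cast hk
  have hle := hl.1 i j hij.le
  have hle' : (l i : ℝ) ≤ l j := by exact_mod_cast hle
  have hdil : ∀ s : ℕ, (dil s l j : ℝ) - dil s l i = s * ((l j : ℝ) - l i) + e := by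
    intro s
    unfold dil
    push_cast
    rw [he]
    ring
  have hxs : ∀ s : ℕ, x s = s * k₀ + N := fun s => by rw [hxdef]; push_cast; ring
  have hsin : Tendsto (fun s => x s * Real.sin (Real.pi * e / x s)) atTop (𝓝 (Real.pi * e)) :=
    sin_lim x hx e
  have hpos : ∀ᶠ s in atTop, 0 < x s ∧ 0 < Real.sin (Real.pi * e / x s) := by
    filter_upwards [hx.eventually (eventually_gt_atTop (0 : ℝ)),
      hx.eventually (eventually_gt_atTop e)] with s h1 h2
    refine ⟨h1, Real.sin_pos_of_pos_of_lt_pi (by positivity) ?_⟩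
    rw [div_lt_iff₀ h1]
    exact mul_lt_mul_of_pos_left h2 hpi
  rcases lt_trichotomy ((l j : ℝ) - l i) 0 with h | h | h
  · linarith
  · -- equal
    have hne : ¬ (l i < l j ∧ l j < l i + k₀) := by
      have : (l j : ℝ) = l i := by linarith
      have : l j = l i := by exact_mod_cast this
      omega
    refine ⟨1, one_pos, ?_⟩
    rw [if_neg hne]
    refine tendsto_const_nhds.congr' ?_
    filter_upwards [hpos] with s hs
    rw [hdil, h, mul_zero, zero_add, pow_zero, div_one, div_self hs.2.ne']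
  · rcases lt_or_ge (l j) (l i + k₀) with h2 | h2
    · have hyes : l i < l j ∧ l j < l i + k₀ := by
        refine ⟨?_, h2⟩
        have : (l i : ℝ) < l j := by linarith
        exact_mod_cast this
      have h2' : (l j : ℝ) - l i < k₀ := by
        have : (l j : ℝ) < l i + k₀ := by exact_mod_cast h2
        linarith
      set d : ℝ := (l j : ℝ) - l i with hd
      have hs1 : 0 < Real.sin (Real.pi * (d / k₀)) := by
        refine Real.sin_pos_of_pos_of_lt_pi (by positivity) ?_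
        have : d / k₀ < 1 := by rw [div_lt_one (by linarith)]; exact h2'
        nlinarith
      refine ⟨Real.sin (Real.pi * (d / k₀)) / (Real.pi * e), by positivity, ?_⟩
      rw [if_pos hyes]
      have hnum : Tendsto (fun s : ℕ => Real.sin (Real.pi * (s * d + e) / x s)) atTop
          (𝓝 (Real.sin (Real.pi * (d / k₀)))) := by
        refine (Real.continuous_sin.tendsto _).comp ?_
        have h3 : Tendsto (fun s : ℕ => Real.pi * (d / k₀) + Real.pi * (e - N * (d / k₀)) / x s)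
            atTop (𝓝 (Real.pi * (d / k₀) + 0)) :=
          tendsto_const_nhds.add (tendsto_const_nhds.div_atTop hx)
        rw [add_zero] at h3
        refine h3.congr' ?_
        filter_upwards [hpos] with s hs
        have h4 := hxs s
        have h5 : (s : ℝ) = (x s - N) / k₀ := by
          rw [h4]
          field_simp
          ring
        have h6 := hs.1.ne'
        rw [h5]
        field_simp
        ring
      have h7 := hnum.div hsin (by positivity)
      refine h7.congr' ?_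
      filter_upwards [hpos] with s hs
      rw [hdil, pow_one, Pi.div_apply, div_div, mul_comm (x s)]
    · have hno : ¬ (l i < l j ∧ l j < l i + k₀) := by omega
      have hd : (l j : ℝ) - l i = k₀ := by
        have h3 := hl.2.2 j
        have h4 : l j = l i + k₀ := by omega
        rw [h4]
        push_cast
        ring
      refine ⟨(N - e) / e, div_pos (by linarith) he0, ?_⟩
      rw [if_neg hno]
      have h3 := (sin_lim x hx (N - e)).div hsin (by positivity)
      have h4 : Real.pi * (N - e) / (Real.pi * e) = (N - e) / e := by field_simp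
      rw [h4] at h3
      refine h3.congr' ?_
      filter_upwards [hpos] with s hs
      have h5 : Real.pi * (s * k₀ + e) / x s = Real.pi - Real.pi * (N - e) / x s := by
        have h6 := hs.1.ne'
        rw [eq_sub_iff_add_eq, ← add_div, div_eq_iff h6, hxs]
        ring
      rw [hdil, hd, pow_zero, div_one, Pi.div_apply]
      show _ = Real.sin (Real.pi * (s * k₀ + e) / x s) / Real.sin (Real.pi * e / x s)
      rw [h5, Real.sin_pi_sub, mul_div_mul_left _ _ hs.1.ne']

/-- The growth of the quantum dimension of `s λ`. -/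
theorem qdim_lim {N k₀ : ℕ} (hN : 0 < N) (hk : 1 ≤ k₀) {l : Fin N → ℕ} (hl : IsLabel N k₀ l) :
    ∃ L : ℝ, 0 < L ∧ Tendsto (fun s : ℕ => ‖qdim N (s * k₀ + N) (dil s l)‖ /
      ((s * k₀ + N : ℕ) : ℝ) ^ deg k₀ l) atTop (𝓝 L) := by
  have h1 : ∀ i j : Fin N, ∃ L : ℝ, 0 < L ∧ (i < j → Tendsto (fun s : ℕ =>
      Real.sin (Real.pi * ((dil s l j : ℝ) - dil s l i) / ((s * k₀ + N : ℕ) : ℝ)) /
        Real.sin (Real.pi * (((j : ℕ) : ℝ) - ((i : ℕ) : ℝ)) / ((s * k₀ + N : ℕ) : ℝ)) /
        ((s * k₀ + N : ℕ) : ℝ) ^ (if l i < l j ∧ l j < l i + k₀ then 1 else 0)) atTop (𝓝 L)) := by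
    intro i j
    by_cases hij : i < j
    · obtain ⟨L, hL, h⟩ := pair_lim hk hl hij
      exact ⟨L, hL, fun _ => h⟩
    · exact ⟨1, one_pos, fun h => absurd h hij⟩
  choose L hL hlim using h1
  refine ⟨∏ i : Fin N, ∏ j ∈ Ioi i, L i j,
    Finset.prod_pos fun i _ => Finset.prod_pos fun j _ => hL i j, ?_⟩
  have h2 : Tendsto (fun s : ℕ => ∏ i : Fin N, ∏ j ∈ Ioi i,
      (Real.sin (Real.pi * ((dil s l j : ℝ) - dil s l i) / ((s * k₀ + N : ℕ) : ℝ)) /
        Real.sin (Real.pi * (((j : ℕ) : ℝ) - ((i : ℕ) : ℝ)) / ((s * k₀ + N : ℕ) : ℝ)) /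
        ((s * k₀ + N : ℕ) : ℝ) ^ (if l i < l j ∧ l j < l i + k₀ then 1 else 0))) atTop
      (𝓝 (∏ i : Fin N, ∏ j ∈ Ioi i, L i j)) :=
    tendsto_finsetProd _ fun i _ => tendsto_finsetProd _ fun j hj =>
      hlim i j (mem_Ioi.1 hj)
  refine h2.congr fun s => ?_
  rw [norm_qdim hN (by omega) (dil_mem hl s)]
  have h3 : ∀ i : Fin N, ∏ j ∈ Ioi i,
      (Real.sin (Real.pi * ((dil s l j : ℝ) - dil s l i) / ((s * k₀ + N : ℕ) : ℝ)) /
        Real.sin (Real.pi * (((j : ℕ) : ℝ) - ((i : ℕ) : ℝ)) / ((s * k₀ + N : ℕ) : ℝ)) /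
        ((s * k₀ + N : ℕ) : ℝ) ^ (if l i < l j ∧ l j < l i + k₀ then 1 else 0)) =
      (∏ j ∈ Ioi i, (Real.sin (Real.pi * ((dil s l j : ℝ) - dil s l i) /
          ((s * k₀ + N : ℕ) : ℝ)) /
        Real.sin (Real.pi * (((j : ℕ) : ℝ) - ((i : ℕ) : ℝ)) / ((s * k₀ + N : ℕ) : ℝ)))) /
        ((s * k₀ + N : ℕ) : ℝ) ^ ((Ioi i).filter fun j => l i < l j ∧ l j < l i + k₀).card := by
    intro i
    rw [Finset.prod_div_distrib]
    congr 1
    rw [Finset.prod_pow_eq_pow_sum]
    congr 1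
    rw [Finset.card_filter]
  rw [Finset.prod_congr rfl fun i _ => h3 i, Finset.prod_div_distrib]
  congr 1
  rw [Finset.prod_pow_eq_pow_sum]
  rfl

end Pool.Agent.Y472.LK
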