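import Mathlib
import Pool.Agent.H524R3.NoExpGen
import Pool.Agent.H524R3.LinkNoExp

/-!
# No expansion along `k = s k₀` for sequences of size `K^t (log K)^B`

After `Pool/Agent/H524R3/NoExpGen.lean` and `Pool/Agent/W719/AEC/NoExp.lean`.
-/

set_option autoImplicit false

open Filter Topology Finset

namespace Pool.Agent.Y472.LK

theorem logpow_little_o_gen (x : ℕ → ℝ) (hx : Tendsto x atTop atTop) (B : ℕ) (s e : ℝ)
    (h : s < e) :
    Tendsto (fun n : ℕ => (x n) ^ s * (1 + Real.log (x n)) ^ B / (x n) ^ e) atTop (𝓝 0) := by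
  have hpos : 0 < (e - s) / (B + 1) := by
    have : 0 < e - s := by linarith
    positivity
  have h1 := H524R3.log_bound_little_o_gen x hx 0 ((e - s) / (B + 1)) hpos
  have h2 := (h1.pow B)
  have h2' : Tendsto (fun n : ℕ => ((x n) ^ (0 : ℝ) * (1 + Real.log (x n)) /
      (x n) ^ ((e - s) / (B + 1))) ^ B * (1 / (x n) ^ ((e - s) / (B + 1)))) atTop (𝓝 0) := by
    have h3 := H524R3.rpow_little_o_gen x hx 0 ((e - s) / (B + 1)) hpos
    have h4 := h2.mul h3
    rw [mul_zero] at h4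
    refine h4.congr fun n => ?_
    rw [Real.rpow_zero]
  refine h2'.congr' ?_
  filter_upwards [hx.eventually (eventually_gt_atTop 0)] with n hn'
  rw [Real.rpow_zero, one_mul, div_pow, div_mul_div_comm, mul_one]
  rw [← Real.rpow_natCast ((x n) ^ ((e - s) / (B + 1))) B, ← Real.rpow_mul hn'.le,
    ← Real.rpow_add hn']
  have h5 : (e - s) / (B + 1) * (B : ℝ) + (e - s) / (B + 1) = e - s := by
    have : (B : ℝ) + 1 ≠ 0 := by positivity
    field_simp
  rw [h5, Real.rpow_sub hn']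
  have := (Real.rpow_pos_of_pos hn' e).ne'
  have := (Real.rpow_pos_of_pos hn' s).ne'
  field_simp

/-- A sequence which is O(x^s (log x)^B) and differs by O(x^s) from a finite sum of terms
b * x^e * z^n (with |z| = 1 and arbitrary real exponents e), where x = x(n) → ∞, is O(x^s). -/
theorem bounded_of_expansion_gen (x : ℕ → ℝ) (hx : Tendsto x atTop atTop) (s : ℝ) (F : ℕ → ℂ) (C : ℝ) (B : ℕ)
    (hF : ∀ᶠ n : ℕ in atTop, ‖F n‖ ≤ C * ((x n) ^ s * (1 + Real.log (x n)) ^ B))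
    {ι : Type*} (β z : ι → ℂ) (e : ι → ℝ) (hz : ∀ i, ‖z i‖ = 1) :
    ∀ (N : ℕ) (T : Finset ι), T.card ≤ N →
      (∃ C' : ℝ, ∀ᶠ n : ℕ in atTop,
        ‖F n - ∑ i ∈ T, β i * (((x n) ^ e i : ℝ) : ℂ) * z i ^ n‖ ≤ C' * (x n) ^ s) →
      ∃ C'' : ℝ, ∀ᶠ n : ℕ in atTop, ‖F n‖ ≤ C'' * (x n) ^ s := by
  classical
  intro N
  induction N with
  | zero =>
    intro T hT h
    have hT' : T = ∅ := Finset.card_eq_zero.mp (Nat.le_zero.mp hT)
    subst hT'
    simpa using h
  | succ N ih =>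
    intro T hT h
    by_cases hall : ∀ i ∈ T, e i ≤ s
    · obtain ⟨C', hC'⟩ := h
      refine ⟨C' + ∑ i ∈ T, ‖β i‖, ?_⟩
      filter_upwards [hC', hx.eventually (eventually_ge_atTop 1)] with n hn hn'
      have h1 : ‖F n‖ ≤ ‖F n - ∑ i ∈ T, β i * (((x n) ^ e i : ℝ) : ℂ) * z i ^ n‖ +
          ‖∑ i ∈ T, β i * (((x n) ^ e i : ℝ) : ℂ) * z i ^ n‖ := by
        have := norm_add_le (F n - ∑ i ∈ T, β i * (((x n) ^ e i : ℝ) : ℂ) * z i ^ n)
          (∑ i ∈ T, β i * (((x n) ^ e i : ℝ) : ℂ) * z i ^ n)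
        simpa using this
      have h2 : ‖∑ i ∈ T, β i * (((x n) ^ e i : ℝ) : ℂ) * z i ^ n‖ ≤
          (∑ i ∈ T, ‖β i‖) * (x n) ^ s := by
        rw [Finset.sum_mul]
        refine (norm_sum_le _ _).trans (Finset.sum_le_sum fun i hi => ?_)
        rw [norm_mul, norm_mul, norm_pow, hz, one_pow, mul_one, Complex.norm_real, Real.norm_eq_abs,
          abs_of_nonneg (Real.rpow_nonneg (by linarith) _)]
        exact mul_le_mul_of_nonneg_left
          (Real.rpow_le_rpow_of_exponent_le hn' (hall i hi)) (norm_nonneg _)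
      linarith [h1, h2, hn, add_mul C' (∑ i ∈ T, ‖β i‖) ((x n) ^ s)]
    · push Not at hall
      obtain ⟨i0, hi0, hi0s⟩ := hall
      obtain ⟨i1, hi1, hmax⟩ := Finset.exists_max_image T e ⟨i0, hi0⟩
      have he : s < e i1 := lt_of_lt_of_le hi0s (hmax i0 hi0)
      set T1 := T.filter (fun i => e i = e i1) with hT1
      set T2 := T.filter (fun i => ¬ e i = e i1) with hT2
      have hsplit : ∀ n : ℕ, ∑ i ∈ T, β i * (((x n) ^ e i : ℝ) : ℂ) * z i ^ n =
          (((x n) ^ e i1 : ℝ) : ℂ) * ∑ i ∈ T1, β i * z i ^ n +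
            ∑ i ∈ T2, β i * (((x n) ^ e i : ℝ) : ℂ) * z i ^ n := by
        intro n
        rw [← Finset.sum_filter_add_sum_filter_not T (fun i => e i = e i1), Finset.mul_sum]
        congr 1
        refine Finset.sum_congr rfl fun i hi => ?_
        rw [(Finset.mem_filter.mp hi).2]
        ring
      obtain ⟨C', hC'⟩ := h
      have hlim : Tendsto (fun n : ℕ => ∑ i ∈ T1, β i * z i ^ n) atTop (𝓝 0) := by
        have hb1 := (logpow_little_o_gen x hx B s (e i1) he).const_mul C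
        have hb2 := (H524R3.rpow_little_o_gen x hx s (e i1) he).const_mul C'
        have hb3 : Tendsto (fun n : ℕ => ∑ i ∈ T2, ‖β i‖ * ((x n) ^ e i / (x n) ^ e i1)) atTop
            (𝓝 (∑ i ∈ T2, ‖β i‖ * 0)) := by
          refine tendsto_finsetSum T2 fun i hi => ?_
          have hi' := Finset.mem_filter.mp hi
          exact (H524R3.rpow_little_o_gen x hx (e i) (e i1)
            (lt_of_le_of_ne (hmax i hi'.1) hi'.2)).const_mul _
        have hb := (hb1.add hb2).add hb3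
        simp only [mul_zero, Finset.sum_const_zero, add_zero] at hb
        refine squeeze_zero_norm' ?_ hb
        filter_upwards [hF, hC', hx.eventually (eventually_gt_atTop 0)] with n h1 h2 hn'
        have hp := Real.rpow_pos_of_pos hn' (e i1)
        have h3 : ‖(((x n) ^ e i1 : ℝ) : ℂ) * ∑ i ∈ T1, β i * z i ^ n‖ ≤
            C * ((x n) ^ s * (1 + Real.log (x n)) ^ B) + C' * (x n) ^ s +
              ∑ i ∈ T2, ‖β i‖ * (x n) ^ e i := by
          have h4 : (((x n) ^ e i1 : ℝ) : ℂ) * ∑ i ∈ T1, β i * z i ^ n =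
              F n - (F n - ∑ i ∈ T, β i * (((x n) ^ e i : ℝ) : ℂ) * z i ^ n) -
                ∑ i ∈ T2, β i * (((x n) ^ e i : ℝ) : ℂ) * z i ^ n := by
            rw [hsplit n]; ring
          rw [h4]
          refine (norm_sub_le _ _).trans ?_
          refine add_le_add ((norm_sub_le _ _).trans (add_le_add h1 h2)) ?_
          refine (norm_sum_le _ _).trans (Finset.sum_le_sum fun i _ => ?_)
          rw [norm_mul, norm_mul, norm_pow, hz, one_pow, mul_one, Complex.norm_real,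
            Real.norm_eq_abs, abs_of_nonneg (Real.rpow_nonneg hn'.le _)]
        rw [norm_mul, Complex.norm_real, Real.norm_eq_abs, abs_of_pos hp, mul_comm] at h3
        have h5 := (le_div_iff₀ hp).mpr h3
        refine h5.trans (le_of_eq ?_)
        rw [add_div, add_div, Finset.sum_div]
        congr 1
        · congr 1
          · rw [mul_div_assoc]
          · rw [mul_div_assoc]
        · refine Finset.sum_congr rfl fun i _ => ?_
          rw [mul_div_assoc]
      have hzero := H524R3.expSum_eq_zero T1 z (fun i _ => hz i) β hlim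
      have hcard : T2.card ≤ N := by
        have h1 : T2 ⊂ T := by
          refine Finset.filter_ssubset.mpr ⟨i1, hi1, by simp⟩
        have := Finset.card_lt_card h1
        omega
      refine ih T2 hcard ⟨C', ?_⟩
      filter_upwards [hC'] with n hn
      rw [hsplit n, hzero n, mul_zero, zero_add] at hn
      exact hn

theorem not_hasLinkExpansion (h k₀ : ℕ) (hk : 1 ≤ k₀) (t : ℝ) (F : ℕ → ℂ) (C : ℝ) (B : ℕ)
    (hF : ∀ᶠ s : ℕ in atTop, ‖F s‖ ≤ C * (((s * k₀ + h : ℕ) : ℝ) ^ t *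
      (1 + Real.log ((s * k₀ + h : ℕ) : ℝ)) ^ B))
    (hlim : Tendsto (fun s : ℕ => ‖F s‖ / ((s * k₀ + h : ℕ) : ℝ) ^ t) atTop atTop) :
    ¬ H524R3.HasLinkExpansion h k₀ F := by
  rintro ⟨v, q, u, d, b, a, hexp⟩
  set D : ℝ := univ.sup' univ_nonempty d with hD
  obtain ⟨L, hL⟩ : ∃ L : ℕ, D - ((L : ℝ) + 1) / 2 ≤ t := by
    obtain ⟨L, hL⟩ := exists_nat_ge (2 * (D - t))
    exact ⟨L, by linarith⟩
  obtain ⟨C₁, hC₁⟩ := hexp L
  have hx := H524R3.level_tendsto h k₀ hk
  let ι := (Σ j : Fin (v + 1), Fin (u j + 1)) × ℕ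
  let β : ι → ℂ := fun i => b i.1 * (if i.2 = 0 then 1 else a i.1 i.2) *
    Complex.exp (2 * Real.pi * Complex.I * (h * (q i.1.1 : ℂ)))
  let z : ι → ℂ := fun i => Complex.exp (2 * Real.pi * Complex.I * (k₀ * (q i.1.1 : ℂ)))
  let e : ι → ℝ := fun i => d i.1 - (i.2 : ℝ) / 2
  have hz : ∀ i, ‖z i‖ = 1 := by
    intro i
    show ‖Complex.exp (2 * Real.pi * Complex.I * (k₀ * (q i.1.1 : ℂ)))‖ = 1
    rw [show 2 * (Real.pi : ℂ) * Complex.I * (k₀ * (q i.1.1 : ℂ)) =
        ((2 * Real.pi * (k₀ * q i.1.1) : ℝ) : ℂ) * Complex.I by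
      push_cast; ring]
    exact Complex.norm_exp_ofReal_mul_I _
  have key := bounded_of_expansion_gen (fun s : ℕ => ((s * k₀ + h : ℕ) : ℝ)) hx t F C B hF β z e hz _
    ((univ : Finset (Σ j : Fin (v + 1), Fin (u j + 1))) ×ˢ range (L + 1)) le_rfl ⟨|C₁|, ?_⟩
  · obtain ⟨C'', hC''⟩ := key
    have h1 := hlim.eventually (eventually_gt_atTop C'')
    obtain ⟨n, hn1, hn2, hn3⟩ := (h1.and (hC''.and (hx.eventually (eventually_gt_atTop 0)))).exists
    have hp := Real.rpow_pos_of_pos hn3 t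
    rw [lt_div_iff₀ hp] at hn1
    linarith
  · filter_upwards [eventually_ge_atTop 1, hx.eventually (eventually_ge_atTop 1)] with s hs hs1
    have h1 := hC₁ s hs
    have hsum : ∑ i ∈ (univ : Finset (Σ j : Fin (v + 1), Fin (u j + 1))) ×ˢ range (L + 1),
          β i * ((((s * k₀ + h : ℕ) : ℝ) ^ e i : ℝ) : ℂ) * z i ^ s =
        ∑ j, Complex.exp (2 * Real.pi * Complex.I * ((s * k₀ + h : ℕ) * (q j : ℂ))) *
          ∑ i : Fin (u j + 1), ((((s * k₀ + h : ℕ) : ℝ) ^ d ⟨j, i⟩ : ℝ) : ℂ) * b ⟨j, i⟩ *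
            (1 + ∑ p ∈ Icc 1 L, a ⟨j, i⟩ p * ((((s * k₀ + h : ℕ) : ℝ) ^ (-(p : ℝ) / 2) : ℝ) : ℂ)) := by
      rw [Finset.sum_product, Fintype.sum_sigma]
      refine Finset.sum_congr rfl fun j _ => ?_
      rw [Finset.mul_sum]
      refine Finset.sum_congr rfl fun i _ => ?_
      have hzn : Complex.exp (2 * Real.pi * Complex.I * ((s * k₀ + h : ℕ) * (q j : ℂ))) =
          Complex.exp (2 * Real.pi * Complex.I * (h * (q j : ℂ))) *
            Complex.exp (2 * Real.pi * Complex.I * (k₀ * (q j : ℂ))) ^ s := by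
        rw [← Complex.exp_nat_mul, ← Complex.exp_add]; congr 1; push_cast; ring
      have hr1 : range (L + 1) = insert 0 (Icc 1 L) := by
        ext x; simp only [mem_range, mem_insert, mem_Icc]; omega
      rw [hr1, Finset.sum_insert (by simp), hzn, mul_add, mul_one, mul_add, Finset.mul_sum,
        Finset.mul_sum]
      congr 1
      · simp only [β, e, z]
        simp only [if_true, Nat.cast_zero, zero_div, sub_zero, mul_one]
        ring
      · refine Finset.sum_congr rfl fun l hl => ?_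
        have hl0 : l ≠ 0 := by rw [mem_Icc] at hl; omega
        simp only [β, e, z, if_neg hl0]
        have hp : ((s * k₀ + h : ℕ) : ℝ) ^ (d ⟨j, i⟩ - (l : ℝ) / 2) =
            ((s * k₀ + h : ℕ) : ℝ) ^ d ⟨j, i⟩ * ((s * k₀ + h : ℕ) : ℝ) ^ (-(l : ℝ) / 2) := by
          rw [← Real.rpow_add (by linarith)]; congr 1; ring
        rw [hp]
        generalize ((s * k₀ + h : ℕ) : ℝ) ^ d ⟨j, i⟩ = A
        generalize ((s * k₀ + h : ℕ) : ℝ) ^ (-(l : ℝ) / 2) = B
        push_cast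
        ring
    rw [hsum]
    refine h1.trans ?_
    calc C₁ * ((s * k₀ + h : ℕ) : ℝ) ^ (D - ((L : ℝ) + 1) / 2)
        ≤ |C₁| * ((s * k₀ + h : ℕ) : ℝ) ^ (D - ((L : ℝ) + 1) / 2) :=
          mul_le_mul_of_nonneg_right (le_abs_self _) (Real.rpow_nonneg (by linarith) _)
      _ ≤ |C₁| * ((s * k₀ + h : ℕ) : ℝ) ^ t :=
          mul_le_mul_of_nonneg_left (Real.rpow_le_rpow_of_exponent_le hs1 hL) (abs_nonneg _)

end Pool.Agent.Y472.LK
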