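import Mathlib
import Pool.Agent.Y472.LK.NoExp
import Pool.Agent.Y472.LK.Dim
import Pool.Agent.Y397.PG.Main
import Pool.Agent.Y397.PG.Theta

/-!
# Quantum SU(N) invariants of framed unlinks in graph manifolds: no asymptotic expansion
-/

set_option autoImplicit false

open Finset Filter Topology W719AEC Pool.Agent.Y397.PG

namespace Pool.Agent.Y472.LK

variable {n m : ℕ}

/-- The invariant of the pair `(M, L)`, `L` an unlink in a ball with framings `f` and labels `a`. -/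
noncomputable def ZL (N r : ℕ) (Γ : PlumbingGraph n m) {p : ℕ} (f : Fin p → ℤ)
    (a : Fin p → Fin N → ℕ) : ℂ :=
  Γ.Z N r * ∏ c, (twist N r (a c) ^ f c * qdim N r (a c))

/-- Growth and failure of the expansion. -/
def LinkFails (N : ℕ) (Γ : PlumbingGraph n m) (k₀ : ℕ) {p : ℕ} (f : Fin p → ℤ)
    (l : Fin p → Fin N → ℕ) (E : ℝ) : Prop :=
  (∃ (c C : ℝ) (B : ℕ), 0 < c ∧ ∀ᶠ s : ℕ in atTop,
    c * (((s * k₀ + N : ℕ) : ℝ) ^ E * Real.log ((s * k₀ + N : ℕ) : ℝ)) ≤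
      ‖ZL N (s * k₀ + N) Γ f fun c => dil s (l c)‖ ∧
    ‖ZL N (s * k₀ + N) Γ f fun c => dil s (l c)‖ ≤
      C * (((s * k₀ + N : ℕ) : ℝ) ^ E * (1 + Real.log ((s * k₀ + N : ℕ) : ℝ)) ^ B)) ∧
  ∀ ω : ℕ → ℂ, (∀ s, ‖ω s‖ = 1) → ¬ H524R3.HasLinkExpansion N k₀
    (fun s => ω s * ZL N (s * k₀ + N) Γ f fun c => dil s (l c))

theorem norm_twist (N r : ℕ) (a : Fin N → ℕ) : ‖twist N r a‖ = 1 := by
  unfold twist
  have : (Real.pi * Complex.I *
      ((∑ i, (a i : ℂ) ^ 2) - (∑ i, (a i : ℂ)) ^ 2 / N - N * ((N : ℂ) ^ 2 - 1) / 12) / r) =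
      ((Real.pi * ((∑ i, (a i : ℝ) ^ 2) - (∑ i, (a i : ℝ)) ^ 2 / N -
        N * ((N : ℝ) ^ 2 - 1) / 12) / r : ℝ) : ℂ) * Complex.I := by
    push_cast
    ring
  rw [this]
  exact Complex.norm_exp_ofReal_mul_I _

theorem norm_ZL (N r : ℕ) (Γ : PlumbingGraph n m) {p : ℕ} (f : Fin p → ℤ)
    (a : Fin p → Fin N → ℕ) : ‖ZL N r Γ f a‖ = ‖Γ.Z N r‖ * ∏ c, ‖qdim N r (a c)‖ := by
  unfold ZL
  rw [norm_mul, norm_prod]
  congr 1
  refine Finset.prod_congr rfl fun c _ => ?_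
  rw [norm_mul, norm_zpow, norm_twist, one_zpow, one_mul]

theorem linkFails_of (N : ℕ) (hN : 2 ≤ N) (Γ : PlumbingGraph n m) (E : ℝ) (h : Fails N Γ E)
    (k₀ : ℕ) (hk : 1 ≤ k₀) {p : ℕ} (f : Fin p → ℤ) (l : Fin p → Fin N → ℕ)
    (hl : ∀ c, IsLabel N k₀ (l c)) :
    LinkFails N Γ k₀ f l (E + (∑ c, deg k₀ (l c) : ℕ)) := by
  obtain ⟨⟨c, C, B, hc, hbd⟩, -⟩ := h
  have hx := level_tendsto N k₀ hk
  have hxn : Tendsto (fun s : ℕ => s * k₀ + N) atTop atTop := by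
    refine tendsto_atTop_mono (fun s => ?_) tendsto_id
    show s ≤ s * k₀ + N
    nlinarith
  have hq : ∀ c : Fin p, ∃ L : ℝ, 0 < L ∧ Tendsto (fun s : ℕ =>
      ‖qdim N (s * k₀ + N) (dil s (l c))‖ / ((s * k₀ + N : ℕ) : ℝ) ^ deg k₀ (l c)) atTop (𝓝 L) :=
    fun c => qdim_lim (by omega) hk (hl c)
  choose Lc hLc hlimc using hq
  set L : ℝ := ∏ c, Lc c with hLdef
  have hL : 0 < L := Finset.prod_pos fun c _ => hLc c
  have hlim : Tendsto (fun s : ℕ => (∏ c : Fin p, ‖qdim N (s * k₀ + N) (dil s (l c))‖) /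
      ((s * k₀ + N : ℕ) : ℝ) ^ (∑ c, deg k₀ (l c))) atTop (𝓝 L) := by
    have h1 := tendsto_finsetProd (univ : Finset (Fin p)) fun c _ => hlimc c
    refine h1.congr fun s => ?_
    rw [Finset.prod_div_distrib, Finset.prod_pow_eq_pow_sum]
  set D : ℕ := ∑ c, deg k₀ (l c) with hD
  have hbounds : ∀ᶠ s : ℕ in atTop,
      (c * (L / 2)) * (((s * k₀ + N : ℕ) : ℝ) ^ (E + (D : ℕ)) *
        Real.log ((s * k₀ + N : ℕ) : ℝ)) ≤ ‖ZL N (s * k₀ + N) Γ f fun c => dil s (l c)‖ ∧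
      ‖ZL N (s * k₀ + N) Γ f fun c => dil s (l c)‖ ≤
        (C * (2 * L)) * (((s * k₀ + N : ℕ) : ℝ) ^ (E + (D : ℕ)) *
          (1 + Real.log ((s * k₀ + N : ℕ) : ℝ)) ^ B) := by
    filter_upwards [hxn.eventually hbd, hlim.eventually (lt_mem_nhds (show L / 2 < L by linarith)),
      hlim.eventually (gt_mem_nhds (show L < 2 * L by linarith)),
      hx.eventually (eventually_ge_atTop 1)] with s h1 h2 h3 h4
    set K : ℝ := ((s * k₀ + N : ℕ) : ℝ) with hK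
    have hK0 : 0 < K := by linarith
    have hlog : 0 ≤ Real.log K := Real.log_nonneg h4
    set Q : ℝ := ∏ c : Fin p, ‖qdim N (s * k₀ + N) (dil s (l c))‖ with hQ
    have hKD : 0 < K ^ D := pow_pos hK0 D
    rw [lt_div_iff₀ hKD] at h2
    rw [div_lt_iff₀ hKD] at h3
    rw [norm_ZL, Real.rpow_add_natCast hK0.ne']
    obtain ⟨h5, h6⟩ := h1
    have hp := Real.rpow_pos_of_pos hK0 E
    have hZ := norm_nonneg (Γ.Z N (s * k₀ + N))
    constructor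
    · calc c * (L / 2) * (K ^ E * K ^ D * Real.log K)
          = (c * (K ^ E * Real.log K)) * (L / 2 * K ^ D) := by ring
        _ ≤ ‖Γ.Z N (s * k₀ + N)‖ * Q :=
          mul_le_mul h5 h2.le (by positivity) hZ
    · have hCB : 0 ≤ C * (K ^ E * (1 + Real.log K) ^ B) := hZ.trans h6
      have hQ0 : 0 ≤ Q := Finset.prod_nonneg fun _ _ => norm_nonneg _
      calc ‖Γ.Z N (s * k₀ + N)‖ * Q ≤ (C * (K ^ E * (1 + Real.log K) ^ B)) * (2 * L * K ^ D) :=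
            mul_le_mul h6 h3.le hQ0 hCB
        _ = C * (2 * L) * (K ^ E * K ^ D * (1 + Real.log K) ^ B) := by ring
  refine ⟨⟨c * (L / 2), C * (2 * L), B, by positivity, hbounds⟩, fun ω hω => ?_⟩
  refine not_hasLinkExpansion N k₀ hk (E + (D : ℕ)) _ (C * (2 * L)) B ?_ ?_
  · filter_upwards [hbounds] with s hs
    rw [norm_mul, hω, one_mul]
    exact hs.2
  · have h3 : Tendsto (fun s : ℕ => c * (L / 2) * Real.log ((s * k₀ + N : ℕ) : ℝ)) atTop atTop :=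
      (Real.tendsto_log_atTop.comp hx).const_mul_atTop (by positivity)
    refine tendsto_atTop_mono' _ ?_ h3
    filter_upwards [hbounds, hx.eventually (eventually_gt_atTop (0 : ℝ))] with s hs hs0
    rw [norm_mul, hω, one_mul, le_div_iff₀ (Real.rpow_pos_of_pos hs0 _)]
    linarith [hs.1]

theorem main (N : ℕ) (hN : 2 ≤ N) (Γ : PlumbingGraph n m) (h0 : ∀ v, Γ.euler v = 0)
    (hd : Doubled Γ) (α α' : Fin n → ℝ) (hα : IsOptimal N Γ α) (hα' : IsOptimal N Γ α')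
    (hne : α ≠ α') (k₀ : ℕ) (hk : 1 ≤ k₀) {p : ℕ} (f : Fin p → ℤ) (l : Fin p → Fin N → ℕ)
    (hl : ∀ c, IsLabel N k₀ (l c)) :
    LinkFails N Γ k₀ f l (growth N Γ (weight N Γ α) + (∑ c, deg k₀ (l c) : ℕ)) :=
  linkFails_of N hN Γ _ (main_of_dual N hN Γ h0 hd α α' hα hα' hne) k₀ hk f l hl

theorem theta_main (k : ℕ) (hk1 : 1 ≤ k) (N : ℕ) (hN : 2 ≤ N) (k₀ : ℕ) (hk : 1 ≤ k₀) {p : ℕ}
    (f : Fin p → ℤ) (l : Fin p → Fin N → ℕ) (hl : ∀ c, IsLabel N k₀ (l c)) :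
    LinkFails N (theta k) k₀ f l
      ((((N : ℝ) ^ 2 - 1) * k + ((N : ℝ) - 1)) + (∑ c, deg k₀ (l c) : ℕ)) :=
  linkFails_of N hN (theta k) _ (theta_fails k hk1 N hN) k₀ hk f l hl

end Pool.Agent.Y472.LK
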